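import Pool.Agent.Lib.MP_bd65ca_an.Defs

/-!
# A lower bound for `I(K)` for all symmetric convex bodies: definitions

The bound is `(2 / √3) ^ d / |K| ≤ I(K)`.  The main tool is the inequality
`∫∫ f(x) g(y) h(x+y) dx dy ≤ (√3/2)^d ‖f‖ ‖g‖ ‖h‖` with the norms of `L^(3/2)` (Young's inequality
with the sharp constant, Beckner, Brascamp-Lieb), proved here by the transport method of Barthe.
-/

open MeasureTheory
open Pool.Agent.MPbd65ca

namespace Pool.Agent.MPbd65ca.Un

/-- Continuous nonnegative functions with compact support. -/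
structure Nice {X : Type*} [TopologicalSpace X] (f : X → ℝ) : Prop where
  cont : Continuous f
  supp : HasCompactSupport f
  nonneg : ∀ x, 0 ≤ f x

/-- The norm in `L^(3/2)` of a nonnegative function. -/
noncomputable def nm {X : Type*} [MeasureSpace X] (f : X → ℝ) : ℝ :=
  (∫ x, f x ^ (3 / 2 : ℝ)) ^ (2 / 3 : ℝ)

end Pool.Agent.MPbd65ca.Un
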