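import Pool.Agent.Lib.MP_bd65ca_an_U.Defs

/-!
# The Fourier transform of a function in the class

Let `F ∈ cls K`, `K` compact, `f = 𝓕 F`; `f` is continuous (`F` integrable), vanishes outside
`K`, so it is integrable, and `F x = ∫ f(ξ) e^{2πi x·ξ} dξ` (Fourier inversion for continuous
integrable functions with integrable transform, `MeasureTheory.Integrable.fourierInv_fourier_eq` /
`Continuous.fourierInv_fourier_eq`).
* `four_zero`: `F 0 = ∫ f`, so `F 0 ≤ ∫ ‖f‖`.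
* `F` is bounded (by `∫ ‖f‖`), so `F²` and `F³` are integrable.
* `four_two`: `∫ F² = ∫ F(x) ∫ f(ξ) e^{2πi x·ξ} dξ dx = ∫ f(ξ) (∫ F(x) e^{2πi x·ξ} dx) dξ =
  ∫ f(ξ) f(-ξ) dξ` (Fubini, `F(x) f(ξ)` is integrable on the product), at most
  `∫ ‖f(ξ)‖ ‖f(-ξ)‖`, and `‖f(-ξ)‖ = ‖f(ξ)‖` since `F` is real.
* `four_three`: `∫ F³ = ∫ F(x) ∫∫ f(ξ) f(η) e^{2πi x·(ξ+η)} dξ dη dx = ∫∫ f(ξ) f(η) f(-ξ-η)`,
  at most `∫∫ ‖f(ξ)‖ ‖f(η)‖ ‖f(ξ+η)‖`.
-/

open MeasureTheory FourierTransform Real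
open Pool.Agent.MPbd65ca

namespace Pool.Agent.MPbd65ca.Un

/-- The absolute value of the Fourier transform. -/
noncomputable def ft {d : ℕ} (F : E d → ℝ) (ξ : E d) : ℝ := ‖𝓕 (fun x => (F x : ℂ)) ξ‖

variable {d : ℕ} {K : Set (E d)} {F : E d → ℝ}

private theorem ff_int (hF : F ∈ cls K) : Integrable (fun x => (F x : ℂ)) := hF.2.1.ofReal

private theorem ff_cont (hF : F ∈ cls K) : Continuous (𝓕 (fun x => (F x : ℂ))) :=
  VectorFourier.fourierIntegral_continuous Real.continuous_fourierChar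
    (innerSL ℝ).continuous₂ (ff_int hF)

private theorem ff_supp (hK : IsCompact K) (hF : F ∈ cls K) :
    HasCompactSupport (𝓕 (fun x => (F x : ℂ))) :=
  hK.of_isClosed_subset (isClosed_tsupport _) hF.2.2.2.2

private theorem ff_fint (hK : IsCompact K) (hF : F ∈ cls K) :
    Integrable (𝓕 (fun x => (F x : ℂ))) :=
  (ff_cont hF).integrable_of_hasCompactSupport (ff_supp hK hF)

private theorem ff_inv' (hK : IsCompact K) (hF : F ∈ cls K) :
    𝓕⁻ (𝓕 (fun x => (F x : ℂ))) = fun x => (F x : ℂ) :=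
  Continuous.fourierInv_fourier_eq (Complex.continuous_ofReal.comp hF.1) (ff_int hF)
    (ff_fint hK hF)

private theorem ff_inv (hK : IsCompact K) (hF : F ∈ cls K) (x : E d) :
    (F x : ℂ) = ∫ ξ, 𝐞 (inner ℝ ξ x) • 𝓕 (fun x => (F x : ℂ)) ξ := by
  rw [← Real.fourierInv_eq, ff_inv' hK hF]

private theorem ff_neg (F : E d → ℝ) (ξ : E d) :
    𝓕 (fun x => (F x : ℂ)) (-ξ) = (starRingEnd ℂ) (𝓕 (fun x => (F x : ℂ)) ξ) := by
  rw [Real.fourier_eq, Real.fourier_eq, ← integral_conj]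
  congr 1
  funext v
  rw [inner_neg_right, neg_neg, Circle.smul_def, Circle.smul_def, smul_eq_mul, smul_eq_mul,
    map_mul, Complex.conj_ofReal, ← Circle.coe_inv_eq_conj, AddChar.map_neg_eq_inv, inv_inv]

private theorem ft_neg (F : E d → ℝ) (ξ : E d) : ft F (-ξ) = ft F ξ := by
  rw [ft, ft, ff_neg, RCLike.norm_conj]

private theorem ff_bdd (hK : IsCompact K) (hF : F ∈ cls K) (x : E d) :
    F x ≤ ∫ ξ, ft F ξ := by
  have h1 : F x ≤ ‖(F x : ℂ)‖ := by
    rw [Complex.norm_real]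
    exact le_norm_self _
  refine h1.trans ?_
  rw [ff_inv hK hF x]
  refine (norm_integral_le_integral_norm _).trans (le_of_eq ?_)
  congr 1
  funext ξ
  rw [Circle.norm_smul, ft]

theorem nice_ft {d : ℕ} {K : Set (E d)} (hK : IsCompact K) {F : E d → ℝ} (hF : F ∈ cls K) :
    Nice (ft F) ∧ ∀ ξ ∉ K, ft F ξ = 0 := by
  refine ⟨⟨(ff_cont hF).norm, (ff_supp hK hF).norm, fun _ => norm_nonneg _⟩, fun ξ hξ => ?_⟩
  rw [ft, image_eq_zero_of_notMem_tsupport (fun h => hξ (hF.2.2.2.2 h)), norm_zero]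

theorem four_zero {d : ℕ} {K : Set (E d)} (hK : IsCompact K) {F : E d → ℝ} (hF : F ∈ cls K) :
    F 0 ≤ ∫ ξ, ft F ξ :=
  ff_bdd hK hF 0

private theorem sq_int (hK : IsCompact K) (hF : F ∈ cls K) : Integrable (fun x => F x ^ 2) := by
  have h := hF.2.1.bdd_mul (c := ∫ ξ, ft F ξ) hF.1.aestronglyMeasurable
    (Filter.Eventually.of_forall fun x => by
      rw [Real.norm_of_nonneg (hF.2.2.1 x)]
      exact ff_bdd hK hF x)
  refine h.congr (Filter.Eventually.of_forall fun x => ?_)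
  simp only [sq]

private theorem cu_int (hK : IsCompact K) (hF : F ∈ cls K) : Integrable (fun x => F x ^ 3) := by
  have h := (sq_int hK hF).bdd_mul (c := ∫ ξ, ft F ξ) hF.1.aestronglyMeasurable
    (Filter.Eventually.of_forall fun x => by
      rw [Real.norm_of_nonneg (hF.2.2.1 x)]
      exact ff_bdd hK hF x)
  refine h.congr (Filter.Eventually.of_forall fun x => ?_)
  show F x * F x ^ 2 = F x ^ 3
  ring

theorem four_two {d : ℕ} {K : Set (E d)} (hK : IsCompact K) {F : E d → ℝ} (hF : F ∈ cls K) :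
    Integrable (fun x => F x ^ 2) ∧ ∫ x, F x ^ 2 = ∫ ξ, ft F ξ ^ 2 := by
  refine ⟨sq_int hK hF, ?_⟩
  have hg : Integrable (fun ξ => 𝓕 (fun x => (F x : ℂ)) (-ξ)) := (ff_fint hK hF).comp_neg
  have h1 := VectorFourier.integral_fourierIntegral_smul_eq_flip (L := innerₗ (E d))
    Real.continuous_fourierChar continuous_inner (ff_int hF) hg
  have h2 : (∫ x, ((F x ^ 2 : ℝ) : ℂ)) = ∫ ξ, ((ft F ξ ^ 2 : ℝ) : ℂ) := by
    have e1 : ∀ ξ, ((ft F ξ ^ 2 : ℝ) : ℂ) =
        𝓕 (fun x => (F x : ℂ)) ξ • 𝓕 (fun x => (F x : ℂ)) (-ξ) := by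
      intro ξ
      rw [ff_neg, smul_eq_mul, Complex.mul_conj', ft]
      push_cast
      rfl
    have e2 : ∀ x, ((F x ^ 2 : ℝ) : ℂ) =
        (F x : ℂ) • 𝓕 (fun ξ => 𝓕 (fun x => (F x : ℂ)) (-ξ)) x := by
      intro x
      rw [← Real.fourierInv_eq_fourier_comp_neg, ff_inv' hK hF, smul_eq_mul]
      push_cast
      ring
    simp only [e1, e2]
    have hflip : (innerₗ (E d)).flip = innerₗ (E d) := by
      ext x y
      simp
    rw [hflip] at h1
    exact h1.symm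
  rw [integral_complex_ofReal, integral_complex_ofReal] at h2
  exact_mod_cast h2

theorem four_three {d : ℕ} {K : Set (E d)} (hK : IsCompact K) {F : E d → ℝ} (hF : F ∈ cls K) :
    Integrable (fun x => F x ^ 3) ∧
      ∫ x, F x ^ 3 ≤ ∫ p : E d × E d, ft F p.1 * ft F p.2 * ft F (p.1 + p.2) := by
  refine ⟨cu_int hK hF, ?_⟩
  obtain ⟨f, hf⟩ : ∃ f : E d → ℂ, f = 𝓕 (fun x => (F x : ℂ)) := ⟨_, rfl⟩
  have hfi : Integrable f := hf ▸ ff_fint hK hF
  have hfc : Continuous f := hf ▸ ff_cont hF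
  have hcube : ∀ x, ((F x ^ 3 : ℝ) : ℂ) = ∫ p : E d × E d,
      (F x : ℂ) * ((𝐞 (inner ℝ p.1 x) • f p.1) * (𝐞 (inner ℝ p.2 x) • f p.2)) := by
    intro x
    rw [integral_const_mul, Measure.volume_eq_prod, integral_prod_mul
      (fun ξ : E d => 𝐞 (inner ℝ ξ x) • f ξ) (fun ξ : E d => 𝐞 (inner ℝ ξ x) • f ξ), hf,
      ← ff_inv hK hF x]
    push_cast
    ring
  have hinner : ∀ p : E d × E d, (∫ x, (F x : ℂ) *
      ((𝐞 (inner ℝ p.1 x) • f p.1) * (𝐞 (inner ℝ p.2 x) • f p.2))) =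
      f p.1 * f p.2 * f (-(p.1 + p.2)) := by
    intro p
    have e0 : f (-(p.1 + p.2)) = ∫ x, 𝐞 (inner ℝ (p.1 + p.2) x) • (F x : ℂ) := by
      rw [hf, Real.fourier_eq]
      congr 1
      funext v
      rw [inner_neg_right, neg_neg, real_inner_comm]
    rw [e0, ← integral_const_mul]
    congr 1
    funext x
    rw [inner_add_left, AddChar.map_add_eq_mul]
    simp only [Circle.smul_def, smul_eq_mul, Circle.coe_mul]
    ring
  have hint : Integrable (Function.uncurry fun (x : E d) (p : E d × E d) => (F x : ℂ) *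
      ((𝐞 (inner ℝ p.1 x) • f p.1) * (𝐞 (inner ℝ p.2 x) • f p.2)))
      (volume.prod (volume : Measure (E d × E d))) := by
    have h1 : Integrable (fun q : E d × (E d × E d) => (F q.1 : ℂ) * (f q.2.1 * f q.2.2))
        (volume.prod (volume : Measure (E d × E d))) :=
      (ff_int hF).mul_prod (hfi.mul_prod hfi)
    refine h1.mono ?_ (Filter.Eventually.of_forall fun q => ?_)
    · refine Continuous.aestronglyMeasurable ?_
      have hF1 := hF.1
      have he := Real.continuous_fourierChar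
      simp only [Circle.smul_def, Function.uncurry_def]
      fun_prop
    · simp only [Function.uncurry, norm_mul, Circle.norm_smul]
      exact le_rfl
  have hmain : ((∫ x, F x ^ 3 : ℝ) : ℂ) =
      ∫ p : E d × E d, f p.1 * f p.2 * f (-(p.1 + p.2)) := by
    rw [← integral_complex_ofReal]
    simp only [hcube]
    rw [integral_integral_swap hint]
    simp only [hinner]
  have h0 : ∫ x, F x ^ 3 ≤ ‖((∫ x, F x ^ 3 : ℝ) : ℂ)‖ := by
    rw [Complex.norm_real]
    exact le_norm_self _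
  refine h0.trans ?_
  rw [hmain]
  refine (norm_integral_le_integral_norm _).trans (le_of_eq ?_)
  congr 1
  funext p
  rw [norm_mul, norm_mul, ← ft_neg F (p.1 + p.2), ft, ft, ft, hf]

end Pool.Agent.MPbd65ca.Un
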