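import Pool.Agent.Lib.MP_bd65ca_an_U.One

/-!
# The inequality in dimension `d`

Induction on `d`.  `d = 0`: the space has one point of volume `1`, both sides are `f g h` at the point
(`(t ^ (3/2)) ^ (2/3) = t`).  `d → d + 1`: for `x' : Fin d → ℝ` let
`φ x' = nm (fun t => f (Fin.cons t x'))`, similarly `χ`, `ψ` for `g`, `h`.  They are `Nice` on
`Fin d → ℝ`: continuity of an integral over a bounded interval depending on a parameter
(the support of `f` is bounded; `intervalIntegral.continuous_parametric_intervalIntegral_of_continuous'`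
or `continuous_parametric_integral_of_continuous`), the support is contained in the image of the support
of `f`.  Fubini (`MeasureTheory.volume_preserving_piFinSuccAbove` for the index `0`; the integrands are
continuous with compact support: `(x, y) ↦ f x g y h (x+y)` has its support in `supp f × supp g`):
`∫∫ f g h = ∫∫ dx' dy' ∫∫ f(s, x') g(t, y') h(s+t, x'+y') ds dt ≤ (√3/2) ∫∫ φ(x') χ(y') ψ(x'+y')` by
`bl_one` (applied to `f (Fin.cons · x')`, `g (Fin.cons · y')`, `h (Fin.cons · (x'+y'))`), and
`nm φ = nm f` etc. (`φ^(3/2) = ∫ f(t,x')^(3/2) dt`, Fubini).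
-/

open MeasureTheory Real
open Pool.Agent.MPbd65ca

namespace Pool.Agent.MPbd65ca.Un

namespace IndAux

/-- The inequality on a space `X` with the constant `c`. -/
private def BL (X : Type*) [TopologicalSpace X] [Add X] [MeasureSpace X] (c : ℝ) : Prop :=
  ∀ f g h : X → ℝ, Nice f → Nice g → Nice h →
    ∫ p : X × X, f p.1 * g p.2 * h (p.1 + p.2) ≤ c * (nm f * nm g * nm h)

private lemma nm_nonneg {X : Type*} [MeasureSpace X] {f : X → ℝ} (hf : ∀ x, 0 ≤ f x) :
    0 ≤ nm f := by
  unfold nm
  refine Real.rpow_nonneg (integral_nonneg fun x => Real.rpow_nonneg (hf x) _) _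

private lemma cs_tri {X : Type*} [TopologicalSpace X] [T2Space X] [Add X] [ContinuousAdd X]
    {f g h : X → ℝ} (hf : Nice f) (hg : Nice g) (hh : Nice h) :
    Continuous (fun p : X × X => f p.1 * g p.2 * h (p.1 + p.2)) ∧
      HasCompactSupport (fun p : X × X => f p.1 * g p.2 * h (p.1 + p.2)) := by
  have hfc := hf.cont
  have hgc := hg.cont
  have hhc := hh.cont
  refine ⟨by fun_prop, ?_⟩
  refine HasCompactSupport.intro (hf.supp.isCompact.prod hg.supp.isCompact) ?_
  rintro ⟨x, y⟩ hp
  by_cases hx : x ∈ tsupport f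
  · have hy : y ∉ tsupport g := fun hy => hp ⟨hx, hy⟩
    simp [image_eq_zero_of_notMem_tsupport hy]
  · simp [image_eq_zero_of_notMem_tsupport hx]

private lemma int_tri {X : Type*} [TopologicalSpace X] [T2Space X] [Add X] [ContinuousAdd X]
    [MeasureSpace X] [BorelSpace X] [SecondCountableTopology X]
    [IsFiniteMeasureOnCompacts (volume : Measure X)] [SFinite (volume : Measure X)]
    {f g h : X → ℝ} (hf : Nice f) (hg : Nice g) (hh : Nice h) :
    Integrable (fun p : X × X => f p.1 * g p.2 * h (p.1 + p.2)) := by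
  have := cs_tri hf hg hh
  exact this.1.integrable_of_hasCompactSupport this.2

section prod

variable {X Y : Type*} [TopologicalSpace X] [T2Space X] [AddCommGroup X] [ContinuousAdd X]
    [MeasureSpace X] [BorelSpace X] [SecondCountableTopology X] [LocallyCompactSpace X]
    [IsFiniteMeasureOnCompacts (volume : Measure X)] [SigmaFinite (volume : Measure X)]
    [TopologicalSpace Y] [T2Space Y] [AddCommGroup Y] [ContinuousAdd Y]
    [MeasureSpace Y] [BorelSpace Y] [SecondCountableTopology Y] [LocallyCompactSpace Y]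
    [IsFiniteMeasureOnCompacts (volume : Measure Y)] [SigmaFinite (volume : Measure Y)]

omit [AddCommGroup X] [ContinuousAdd X] [LocallyCompactSpace X] [AddCommGroup Y]
  [ContinuousAdd Y] [LocallyCompactSpace Y] [T2Space X] [T2Space Y]
  [TopologicalSpace X] [TopologicalSpace Y] [BorelSpace X] [BorelSpace Y]
  [SecondCountableTopology X] [SecondCountableTopology Y]
  [IsFiniteMeasureOnCompacts (volume : Measure X)]
  [IsFiniteMeasureOnCompacts (volume : Measure Y)] in
private lemma mp_comm : MeasurePreserving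
    (fun r : (X × X) × (Y × Y) => ((r.1.1, r.2.1), (r.1.2, r.2.2))) volume volume := by
  have e1 : MeasurePreserving (MeasurableEquiv.prodAssoc : (X × X) × (Y × Y) ≃ᵐ X × X × (Y × Y)) :=
    volume_preserving_prodAssoc
  have e2 : MeasurePreserving (MeasurableEquiv.prodAssoc : (X × Y) × Y ≃ᵐ X × (Y × Y)) :=
    volume_preserving_prodAssoc
  have e3 : MeasurePreserving (Prod.swap : X × Y → Y × X) volume volume :=
    Measure.measurePreserving_swap
  have e4 : MeasurePreserving (MeasurableEquiv.prodAssoc : (Y × X) × Y ≃ᵐ Y × (X × Y)) :=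
    volume_preserving_prodAssoc
  have e5 : MeasurePreserving (MeasurableEquiv.prodAssoc : (X × Y) × (X × Y) ≃ᵐ X × Y × (X × Y)) :=
    volume_preserving_prodAssoc
  have e6 := e5.symm.comp
    (((MeasurePreserving.id (volume : Measure X)).prod
      (e4.comp ((e3.prod (MeasurePreserving.id (volume : Measure Y))).comp e2.symm))).comp e1)
  exact e6

omit [T2Space X] [AddCommGroup X] [ContinuousAdd X] [BorelSpace X] [SecondCountableTopology X]
  [LocallyCompactSpace X] [IsFiniteMeasureOnCompacts (volume : Measure X)]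
  [SigmaFinite (volume : Measure X)] [AddCommGroup Y] [ContinuousAdd Y]
  [BorelSpace Y] [SecondCountableTopology Y]
  [LocallyCompactSpace Y] [IsFiniteMeasureOnCompacts (volume : Measure Y)]
  [SigmaFinite (volume : Measure Y)] [MeasureSpace X] [MeasureSpace Y] [T2Space Y] in
private lemma slice_supp {G : X × Y → ℝ} (y : Y) (hy : y ∉ Prod.snd '' tsupport G) (x : X) :
    G (x, y) = 0 := by
  by_contra h
  exact hy ⟨(x, y), subset_tsupport _ h, rfl⟩

omit [AddCommGroup X] [ContinuousAdd X] [SecondCountableTopology X]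
  [SigmaFinite (volume : Measure X)] [AddCommGroup Y] [ContinuousAdd Y]
  [IsFiniteMeasureOnCompacts (volume : Measure Y)]
  [SigmaFinite (volume : Measure Y)] [MeasureSpace Y] [BorelSpace Y] [T2Space X] in
private lemma par {G : X × Y → ℝ} (hG : Continuous G) (hs : HasCompactSupport G) :
    Continuous (fun y => ∫ x, G (x, y)) ∧ HasCompactSupport (fun y => ∫ x, G (x, y)) := by
  have hc1 : IsCompact (Prod.fst '' tsupport G) := hs.isCompact.image continuous_fst
  have hc2 : IsCompact (Prod.snd '' tsupport G) := hs.isCompact.image continuous_snd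
  constructor
  · have h := continuous_parametric_integral_of_continuous (μ := (volume : Measure X))
      (f := fun (y : Y) (x : X) => G (x, y)) (by
        have : Function.uncurry (fun (y : Y) (x : X) => G (x, y)) = fun p => G (p.2, p.1) := rfl
        rw [this]; fun_prop) hc1
    refine h.congr fun y => ?_
    refine setIntegral_eq_integral_of_forall_compl_eq_zero fun x hx => ?_
    by_contra h0
    exact hx ⟨(x, y), subset_tsupport _ h0, rfl⟩
  · refine HasCompactSupport.intro hc2 fun y hy => ?_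
    simp [slice_supp y hy]

omit [T2Space X] [AddCommGroup X] [ContinuousAdd X] [MeasureSpace X] [BorelSpace X]
  [SecondCountableTopology X] [LocallyCompactSpace X]
  [IsFiniteMeasureOnCompacts (volume : Measure X)] [SigmaFinite (volume : Measure X)] in
private lemma pow_cs {f : X → ℝ} (hf : Nice f) :
    Continuous (fun x => f x ^ (3 / 2 : ℝ)) ∧ HasCompactSupport (fun x => f x ^ (3 / 2 : ℝ)) := by
  refine ⟨hf.cont.rpow_const fun x => Or.inr (by norm_num), ?_⟩
  exact hf.supp.comp_left (g := fun t : ℝ => t ^ (3 / 2 : ℝ)) (Real.zero_rpow (by norm_num))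

omit [AddCommGroup X] [ContinuousAdd X] [MeasureSpace X] [BorelSpace X]
  [SecondCountableTopology X] [LocallyCompactSpace X]
  [IsFiniteMeasureOnCompacts (volume : Measure X)] [SigmaFinite (volume : Measure X)]
  [AddCommGroup Y] [ContinuousAdd Y] [MeasureSpace Y] [BorelSpace Y]
  [SecondCountableTopology Y] [LocallyCompactSpace Y]
  [IsFiniteMeasureOnCompacts (volume : Measure Y)] [SigmaFinite (volume : Measure Y)]
  [T2Space Y] in
private lemma slice_nice {f : X × Y → ℝ} (hf : Nice f) (y : Y) : Nice (fun x => f (x, y)) := by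
  refine ⟨hf.cont.comp (by fun_prop), ?_, fun x => hf.nonneg _⟩
  refine HasCompactSupport.intro (hf.supp.isCompact.image continuous_fst) fun x hx => ?_
  by_contra h0
  exact hx ⟨(x, y), subset_tsupport _ h0, rfl⟩

omit [AddCommGroup X] [ContinuousAdd X] [SecondCountableTopology X]
  [SigmaFinite (volume : Measure X)] [AddCommGroup Y] [ContinuousAdd Y]
  [IsFiniteMeasureOnCompacts (volume : Measure Y)]
  [SigmaFinite (volume : Measure Y)] [MeasureSpace Y] [BorelSpace Y] [T2Space X] in
private lemma phi_nice {f : X × Y → ℝ} (hf : Nice f) : Nice (fun y => nm (fun x => f (x, y))) := by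
  have h1 := pow_cs hf
  have h2 := par h1.1 h1.2
  refine ⟨?_, ?_, fun y => nm_nonneg fun x => hf.nonneg _⟩
  · unfold nm
    exact h2.1.rpow_const fun x => Or.inr (by norm_num)
  · unfold nm
    exact h2.2.comp_left (g := fun t : ℝ => t ^ (2 / 3 : ℝ)) (Real.zero_rpow (by norm_num))

omit [AddCommGroup X] [ContinuousAdd X] [LocallyCompactSpace X] [AddCommGroup Y]
  [ContinuousAdd Y] [LocallyCompactSpace Y] [T2Space X] [T2Space Y]
  [SecondCountableTopology X] in
private lemma phi_nm {f : X × Y → ℝ} (hf : Nice f) :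
    nm (fun y => nm (fun x => f (x, y))) = nm f := by
  have h1 := pow_cs hf
  have hI : Integrable (fun p : X × Y => f p ^ (3 / 2 : ℝ)) :=
    h1.1.integrable_of_hasCompactSupport h1.2
  have h2 : ∀ y, (nm (fun x => f (x, y))) ^ (3 / 2 : ℝ) = ∫ x, f (x, y) ^ (3 / 2 : ℝ) := by
    intro y
    unfold nm
    rw [← Real.rpow_mul (integral_nonneg fun x => Real.rpow_nonneg (hf.nonneg _) _)]
    norm_num
  have h3 : ∫ y, (nm (fun x => f (x, y))) ^ (3 / 2 : ℝ) = ∫ p : X × Y, f p ^ (3 / 2 : ℝ) := by
    simp_rw [h2]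
    rw [Measure.volume_eq_prod] at hI ⊢
    rw [integral_prod_symm _ hI]
  rw [nm, h3, nm]

private lemma BL_prod {c c' : ℝ} (hc : 0 ≤ c) (hX : BL X c) (hY : BL Y c') :
    BL (X × Y) (c * c') := by
  intro f g h hf hg hh
  have hT := cs_tri hf hg hh
  have hm := mp_comm (X := X) (Y := Y)
  have hm2 : MeasurePreserving (fun r : (X × X) × (Y × Y) => ((r.1.1, r.2.1), (r.1.2, r.2.2)))
    (volume : Measure ((X × X) × (Y × Y))) (volume : Measure ((X × Y) × (X × Y))) := hm
  have e1 : ∫ p : (X × Y) × (X × Y), f p.1 * g p.2 * h (p.1 + p.2) =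
      ∫ r : (X × X) × (Y × Y), f (r.1.1, r.2.1) * g (r.1.2, r.2.2) *
        h (r.1.1 + r.1.2, r.2.1 + r.2.2) := by
    rw [← hm2.map_eq, integral_map hm2.measurable.aemeasurable hT.1.aestronglyMeasurable]
    rfl
  have hI : Integrable (fun r : (X × X) × (Y × Y) => f (r.1.1, r.2.1) * g (r.1.2, r.2.2) *
        h (r.1.1 + r.1.2, r.2.1 + r.2.2)) := by
    have h0 := hT.1.integrable_of_hasCompactSupport (μ := volume) hT.2
    exact hm2.integrable_comp_of_integrable h0
  rw [e1]
  rw [Measure.volume_eq_prod] at hI ⊢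
  rw [integral_prod_symm _ hI]
  have h1 : ∀ w : Y × Y, ∫ z : X × X, f (z.1, w.1) * g (z.2, w.2) *
      h (z.1 + z.2, w.1 + w.2) ≤ c * (nm (fun x => f (x, w.1)) * nm (fun x => g (x, w.2)) *
        nm (fun x => h (x, w.1 + w.2))) := fun w =>
    hX _ _ _ (slice_nice hf w.1) (slice_nice hg w.2) (slice_nice hh (w.1 + w.2))
  have h2 := hY _ _ _ (phi_nice hf) (phi_nice hg) (phi_nice hh)
  rw [phi_nm hf, phi_nm hg, phi_nm hh] at h2
  calc ∫ w : Y × Y, ∫ z : X × X, f (z.1, w.1) * g (z.2, w.2) * h (z.1 + z.2, w.1 + w.2)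
      ≤ ∫ w : Y × Y, c * (nm (fun x => f (x, w.1)) * nm (fun x => g (x, w.2)) *
        nm (fun x => h (x, w.1 + w.2))) :=
        integral_mono hI.integral_prod_right
          ((int_tri (phi_nice hf) (phi_nice hg) (phi_nice hh)).const_mul c) h1
    _ = c * ∫ w : Y × Y, (nm (fun x => f (x, w.1)) * nm (fun x => g (x, w.2)) *
        nm (fun x => h (x, w.1 + w.2))) := integral_const_mul _ _
    _ ≤ c * (c' * (nm f * nm g * nm h)) := by gcongr
    _ = c * c' * (nm f * nm g * nm h) := by ring

end prod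

private lemma BL_equiv {X Z : Type*} [TopologicalSpace X] [AddCommGroup X]
    [MeasureSpace X] [TopologicalSpace Z] [AddCommGroup Z] [MeasureSpace Z]
    [SFinite (volume : Measure X)] [SFinite (volume : Measure Z)]
    {c : ℝ} (hX : BL X c) (e : X ≃ᵐ Z) (he : Continuous e) (hes : Continuous e.symm)
    (hadd : ∀ x y, e (x + y) = e x + e y)
    (hmp : MeasurePreserving e) : BL Z c := by
  intro f g h hf hg hh
  have hn : ∀ {f : Z → ℝ}, Nice f → Nice (fun x => f (e x)) := by
    intro f hf
    let e' : X ≃ₜ Z := ⟨e.toEquiv, he, hes⟩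
    exact ⟨hf.cont.comp he, hf.supp.comp_homeomorph e', fun x => hf.nonneg _⟩
  have hnm : ∀ {f : Z → ℝ}, nm (fun x => f (e x)) = nm f := by
    intro f
    unfold nm
    rw [hmp.integral_comp' (fun z => f z ^ (3 / 2 : ℝ))]
  have h1 := hX _ _ _ (hn hf) (hn hg) (hn hh)
  rw [hnm, hnm, hnm] at h1
  refine le_trans (le_of_eq ?_) h1
  have h2 : MeasurePreserving (e.prodCongr e) (volume : Measure (X × X))
    (volume : Measure (Z × Z)) := hmp.prod hmp
  rw [← h2.integral_comp' (fun p : Z × Z => f p.1 * g p.2 * h (p.1 + p.2))]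
  refine integral_congr_ae (Filter.Eventually.of_forall fun p => ?_)
  show f (e p.1) * g (e p.2) * h (e p.1 + e p.2) = f (e p.1) * g (e p.2) * h (e (p.1 + p.2))
  rw [hadd]

end IndAux

open IndAux

private lemma BL_pi (d : ℕ) : BL (Fin d → ℝ) ((√3 / 2) ^ d) := by
  induction d with
  | zero =>
    intro f g h hf hg hh
    have hv : (volume : Measure (Fin 0 → ℝ)) = Measure.dirac 0 :=
      Measure.volume_pi_eq_dirac 0
    have h0 : ∀ {f : (Fin 0 → ℝ) → ℝ}, Nice f → nm f = f 0 := by
      intro f hf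
      unfold nm
      rw [hv, integral_dirac, ← Real.rpow_mul (hf.nonneg _)]
      norm_num
    rw [h0 hf, h0 hg, h0 hh]
    have h2 : (fun p : (Fin 0 → ℝ) × (Fin 0 → ℝ) => f p.1 * g p.2 * h (p.1 + p.2)) =
        fun _ => f 0 * g 0 * h 0 := by
      funext p
      rw [Subsingleton.elim p.1 0, Subsingleton.elim p.2 0]
      simp
    have h1 : (volume : Measure ((Fin 0 → ℝ) × (Fin 0 → ℝ))).real Set.univ = 1 := by
      rw [Measure.volume_eq_prod, hv, ← Set.univ_prod_univ, Measure.real, Measure.prod_prod]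
      simp
    rw [h2, integral_const, h1]
    simp
  | succ d ih =>
    have h1 : BL ℝ (√3 / 2) := fun f g h hf hg hh => bl_one hf hg hh
    have h2 := BL_prod (by positivity) h1 ih
    rw [pow_succ']
    refine BL_equiv h2 (MeasurableEquiv.piFinSuccAbove (fun _ => ℝ) 0).symm ?_ ?_ ?_ ?_
    · exact Continuous.finInsertNth (A := fun _ : Fin (d + 1) => ℝ) 0
        (f := fun p : ℝ × (Fin d → ℝ) => p.1) (g := fun p => p.2) continuous_fst continuous_snd
    · exact (continuous_apply 0).prodMk (continuous_pi fun j => continuous_apply _)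
    · intro x y
      apply (MeasurableEquiv.piFinSuccAbove (fun _ => ℝ) 0).injective
      rw [MeasurableEquiv.apply_symm_apply]
      have : ∀ u v, (MeasurableEquiv.piFinSuccAbove (fun _ : Fin (d + 1) => ℝ) 0) (u + v) =
        (MeasurableEquiv.piFinSuccAbove (fun _ => ℝ) 0) u +
          (MeasurableEquiv.piFinSuccAbove (fun _ => ℝ) 0) v := fun u v => rfl
      rw [this, MeasurableEquiv.apply_symm_apply, MeasurableEquiv.apply_symm_apply]
    · exact (volume_preserving_piFinSuccAbove (fun _ => ℝ) 0).symm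

theorem bl_pi (d : ℕ) {f g h : (Fin d → ℝ) → ℝ} (hf : Nice f) (hg : Nice g) (hh : Nice h) :
    ∫ p : (Fin d → ℝ) × (Fin d → ℝ), f p.1 * g p.2 * h (p.1 + p.2) ≤
      (√3 / 2) ^ d * (nm f * nm g * nm h) :=
  BL_pi d f g h hf hg hh

theorem bl_E (d : ℕ) {f g h : E d → ℝ} (hf : Nice f) (hg : Nice g) (hh : Nice h) :
    ∫ p : E d × E d, f p.1 * g p.2 * h (p.1 + p.2) ≤ (√3 / 2) ^ d * (nm f * nm g * nm h) := by
  refine BL_equiv (BL_pi d) (MeasurableEquiv.toLp 2 (Fin d → ℝ)) ?_ ?_ ?_ ?_ f g h hf hg hh
  · exact PiLp.continuous_toLp 2 _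
  · exact PiLp.continuous_ofLp 2 _
  · intro x y
    rfl
  · exact PiLp.volume_preserving_toLp (Fin d)

end Pool.Agent.MPbd65ca.Un
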