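import Pool.Agent.Lib.MP_bd65ca_an_U.Main

/-!
# The extremal constant of all symmetric convex bodies of dimension `d`
-/

open MeasureTheory Real
open Pool.Agent.MPbd65ca ScaleAux

namespace Pool.Agent.MPbd65ca.Un

/-- The infimum `κ_d` of `|K| I(K)` over all symmetric convex bodies `K` of dimension `d`. -/
noncomputable def kappa (d : ℕ) : ℝ :=
  sInf {t : ℝ | ∃ K : Set (E d), IsBody K ∧ t = volume.real K * turan K}

theorem lower_mul {d : ℕ} {K : Set (E d)} (hK : IsBody K) :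
    (2 / √3) ^ d ≤ volume.real K * turan K := by
  have h := lower hK
  have hV : 0 < volume.real K := vol_pos hK
  rw [div_le_iff₀ hV] at h
  linarith [mul_comm (turan K) (volume.real K)]

theorem bddBelow_kappa (d : ℕ) :
    BddBelow {t : ℝ | ∃ K : Set (E d), IsBody K ∧ t = volume.real K * turan K} := by
  refine ⟨(2 / √3) ^ d, ?_⟩
  rintro _ ⟨K, hK, rfl⟩
  exact lower_mul hK

theorem le_kappa (d : ℕ) : (2 / √3) ^ d ≤ kappa d := by
  refine le_csInf ⟨_, _, isBody_closedBall d, rfl⟩ ?_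
  rintro _ ⟨K, hK, rfl⟩
  exact lower_mul hK

theorem kappa_le : ∃ c : ℝ, 0 < c ∧ c < 1 ∧ ∀ d ≥ 2, kappa d ≤ (2 * c) ^ d := by
  obtain ⟨c, hc0, hc1, h⟩ := exists_gap
  refine ⟨c, hc0, hc1, fun d hd => ?_⟩
  obtain ⟨K, hK, F, hF, hFi⟩ := h d hd
  have hV : 0 < volume.real K := vol_pos hK
  refine (csInf_le (bddBelow_kappa d) ⟨K, hK, rfl⟩).trans ?_
  calc volume.real K * turan K ≤ volume.real K * (c ^ d * (2 ^ d / volume.real K)) :=
        mul_le_mul_of_nonneg_left ((turan_le_integral hF).trans hFi) hV.le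
    _ = (2 * c) ^ d := by
        rw [mul_pow]
        field_simp

end Pool.Agent.MPbd65ca.Un
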