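import Pool.Agent.Lib.MP_bd65ca_an_U.Ind
import Pool.Agent.Lib.MP_bd65ca_an_U.Four
import Pool.Agent.Lib.MP_bd65ca_an.Gap

/-!
# The lower bound

Let `F ∈ cls K`, `φ = ft F`, `V = volume.real K`, `I = ∫ F`, `s = (∫ φ²)^(1/2)`.
* `(∫ F²)² ≤ I ∫ F³` (Cauchy-Schwarz: `∫ F (1 - t F)² ≥ 0` for all real `t`, or
  `F² = F^(1/2) F^(3/2)`), so `s⁴ ≤ I ∫ F³ ≤ I (√3/2)^d (nm φ)³` (`four_two`, `four_three`, `bl_E`).
* Hoelder with the exponents `4/3` and `4` (`φ` vanishes outside `K`):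
  `∫ φ^(3/2) ≤ (∫ φ²)^(3/4) V^(1/4)`, so `nm φ ≤ s V^(1/6)` and `(nm φ)³ ≤ s³ V^(1/2)`.
* So `s⁴ ≤ I (√3/2)^d s³ V^(1/2)`, `s > 0` (because `1 ≤ F 0 ≤ ∫ φ ≤ s V^(1/2)`, Cauchy-Schwarz), hence
  `s ≤ I (√3/2)^d V^(1/2)` and `1 ≤ s V^(1/2) ≤ I (√3/2)^d V`.
-/

open MeasureTheory Real
open Pool.Agent.MPbd65ca ScaleAux

namespace Pool.Agent.MPbd65ca.Un

/-- Cauchy-Schwarz for `F ≥ 0`. -/
private theorem cs {d : ℕ} {F : E d → ℝ} (h0 : ∀ x, 0 ≤ F x) (h1 : Integrable F)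
    (h2 : Integrable fun x => F x ^ 2) (h3 : Integrable fun x => F x ^ 3) :
    (∫ x, F x ^ 2) ^ 2 ≤ (∫ x, F x) * ∫ x, F x ^ 3 := by
  have h : ∀ t : ℝ, 0 ≤ (∫ x, F x ^ 3) * (t * t) + (-2 * ∫ x, F x ^ 2) * t + ∫ x, F x := by
    intro t
    have e : ∫ x, F x * (1 - t * F x) ^ 2 =
        (∫ x, F x ^ 3) * (t * t) + (-2 * ∫ x, F x ^ 2) * t + ∫ x, F x := by
      have e1 : ∀ x, F x * (1 - t * F x) ^ 2 = (t * t) * F x ^ 3 + (-2 * t) * F x ^ 2 + F x := by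
        intro x
        ring
      simp only [e1]
      have i3 : Integrable fun x => (t * t) * F x ^ 3 := h3.const_mul _
      have i2 : Integrable fun x => (-2 * t) * F x ^ 2 := h2.const_mul _
      have i32 : Integrable fun x => (t * t) * F x ^ 3 + (-2 * t) * F x ^ 2 := i3.add i2
      rw [integral_add i32 h1, integral_add i3 i2, integral_const_mul, integral_const_mul]
      ring
    rw [← e]
    exact integral_nonneg fun x => mul_nonneg (h0 x) (sq_nonneg _)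
  have hd := discrim_le_zero h
  unfold discrim at hd
  nlinarith

/-- Hoelder on `K`. -/
private theorem hoelder {d : ℕ} {K : Set (E d)} (hK : IsCompact K) {φ : E d → ℝ} (hφ : Nice φ)
    (h0 : ∀ ξ ∉ K, φ ξ = 0) {p q : ℝ} (hpq : p.HolderConjugate q) {r : ℝ} (hr : 0 < r) :
    ∫ ξ, φ ξ ^ r ≤ (∫ ξ, φ ξ ^ (r * p)) ^ (1 / p) * (volume.real K) ^ (1 / q) := by
  have hset : ∀ u : ℝ, 0 < u → ∫ ξ, φ ξ ^ u = ∫ ξ in K, φ ξ ^ u := by
    intro u hu
    refine (setIntegral_eq_integral_of_forall_compl_eq_zero fun ξ hξ => ?_).symm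
    rw [h0 ξ hξ, Real.zero_rpow hu.ne']
  have hcont : ∀ u : ℝ, 0 < u → Continuous fun ξ => φ ξ ^ u := fun u hu =>
    hφ.cont.rpow_const fun _ => Or.inr hu.le
  have hsupp : HasCompactSupport fun ξ => φ ξ ^ r := by
    refine hφ.supp.comp_left (g := fun t : ℝ => t ^ r) ?_
    exact Real.zero_rpow hr.ne'
  have hfin : IsFiniteMeasure (volume.restrict K) :=
    ⟨by rw [Measure.restrict_apply_univ]; exact hK.measure_lt_top⟩
  have hf : MemLp (fun ξ => φ ξ ^ r) (ENNReal.ofReal p) (volume.restrict K) :=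
    ((hcont r hr).memLp_of_hasCompactSupport hsupp).restrict K
  have hg : MemLp (fun _ : E d => (1 : ℝ)) (ENNReal.ofReal q) (volume.restrict K) :=
    memLp_const 1
  have h := integral_mul_le_Lp_mul_Lq_of_nonneg hpq
    (Filter.Eventually.of_forall fun ξ => Real.rpow_nonneg (hφ.nonneg ξ) r)
    (Filter.Eventually.of_forall fun _ => zero_le_one) hf hg
  simp only [mul_one, Real.one_rpow, integral_const, smul_eq_mul, measureReal_restrict_apply_univ]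
    at h
  have e : ∀ ξ, (φ ξ ^ r) ^ p = φ ξ ^ (r * p) := fun ξ => (Real.rpow_mul (hφ.nonneg ξ) r p).symm
  simp only [e] at h
  rw [hset r hr, hset (r * p) (mul_pos hr hpq.pos)]
  exact h

theorem one_le {d : ℕ} {K : Set (E d)} (hK : IsBody K) {F : E d → ℝ} (hF : F ∈ cls K) :
    1 ≤ (√3 / 2) ^ d * volume.real K * ∫ x, F x := by
  have hKc := hK.isCompact
  obtain ⟨hn, hz⟩ := nice_ft hKc hF
  obtain ⟨i2, e2⟩ := four_two hKc hF
  obtain ⟨i3, e3⟩ := four_three hKc hF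
  have e0 := four_zero hKc hF
  have hb := bl_E d hn hn hn
  have hV : 0 < volume.real K := vol_pos hK
  have hI : 0 ≤ ∫ x, F x := integral_nonneg hF.2.2.1
  have hcs := cs hF.2.2.1 hF.2.1 i2 i3
  have hc : (0 : ℝ) < (√3 / 2) ^ d := by positivity
  set S : ℝ := ∫ ξ, ft F ξ ^ 2 with hS
  set J : ℝ := ∫ ξ, ft F ξ ^ (3 / 2 : ℝ) with hJ
  set V : ℝ := volume.real K with hVdef
  set I : ℝ := ∫ x, F x with hIdef
  set c : ℝ := (√3 / 2) ^ d with hcdef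
  have hS0 : 0 ≤ S := integral_nonneg fun ξ => sq_nonneg _
  have hJ0 : 0 ≤ J := integral_nonneg fun ξ => Real.rpow_nonneg (hn.nonneg ξ) _
  -- the square
  have hSr : S = ∫ ξ, ft F ξ ^ (2 : ℝ) := by
    rw [hS]
    congr 1
    funext ξ
    exact (Real.rpow_natCast _ 2).symm
  -- Hoelder for `J`
  have hJ4 : J ^ 4 ≤ S ^ 3 * V := by
    have hpq : Real.HolderConjugate (4 / 3) 4 := by
      rw [Real.holderConjugate_iff]
      norm_num
    have h := hoelder hKc hn hz hpq (r := 3 / 2) (by norm_num)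
    rw [show (3 / 2 : ℝ) * (4 / 3) = 2 by norm_num, ← hSr] at h
    calc J ^ 4 ≤ (S ^ (1 / (4 / 3) : ℝ) * V ^ (1 / 4 : ℝ)) ^ 4 := by gcongr
      _ = S ^ 3 * V := by
        rw [mul_pow, ← Real.rpow_natCast, ← Real.rpow_natCast, ← Real.rpow_mul hS0,
          ← Real.rpow_mul hV.le]
        norm_num
  -- Hoelder for the integral
  have hSV : 1 ≤ S * V := by
    have hpq : Real.HolderConjugate 2 2 := by
      rw [Real.holderConjugate_iff]
      norm_num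
    have h := hoelder hKc hn hz hpq (r := 1) (by norm_num)
    rw [one_mul, ← hSr] at h
    simp only [Real.rpow_one] at h
    have h1 : 1 ≤ S ^ (1 / 2 : ℝ) * V ^ (1 / 2 : ℝ) := (hF.2.2.2.1.trans e0).trans h
    have h2 : (1 : ℝ) ≤ (S ^ (1 / 2 : ℝ) * V ^ (1 / 2 : ℝ)) ^ 2 := one_le_pow₀ h1
    have h3 : (S ^ (1 / 2 : ℝ) * V ^ (1 / 2 : ℝ)) ^ 2 = S * V := by
      rw [mul_pow, ← Real.rpow_natCast, ← Real.rpow_natCast, ← Real.rpow_mul hS0,
        ← Real.rpow_mul hV.le]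
      norm_num
    rwa [h3] at h2
  have hSpos : 0 < S := by
    rcases hS0.eq_or_lt with h | h
    · rw [← h, zero_mul] at hSV
      linarith
    · exact h
  -- the cube of the norm
  have hnm : nm (ft F) * nm (ft F) * nm (ft F) = J ^ 2 := by
    unfold nm
    rw [← hJ]
    have h1 : J ^ (2 / 3 : ℝ) * J ^ (2 / 3 : ℝ) * J ^ (2 / 3 : ℝ) = (J ^ (2 / 3 : ℝ)) ^ 3 := by
      ring
    rw [h1, ← Real.rpow_natCast, ← Real.rpow_mul hJ0]
    norm_num
  rw [hnm] at hb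
  have h1 : S ^ 2 ≤ I * (c * J ^ 2) := by
    rw [← e2]
    exact hcs.trans (mul_le_mul_of_nonneg_left (e3.trans hb) hI)
  have h2 : S ^ 4 ≤ I ^ 2 * c ^ 2 * (S ^ 3 * V) := by
    calc S ^ 4 = (S ^ 2) ^ 2 := by ring
      _ ≤ (I * (c * J ^ 2)) ^ 2 := by gcongr
      _ = I ^ 2 * c ^ 2 * J ^ 4 := by ring
      _ ≤ I ^ 2 * c ^ 2 * (S ^ 3 * V) := by gcongr
  have h3 : S ≤ I ^ 2 * c ^ 2 * V := by
    have h4 : 0 < S ^ 3 := by positivity
    have h5 : S ^ 3 * S ≤ S ^ 3 * (I ^ 2 * c ^ 2 * V) := by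
      calc S ^ 3 * S = S ^ 4 := by ring
        _ ≤ I ^ 2 * c ^ 2 * (S ^ 3 * V) := h2
        _ = S ^ 3 * (I ^ 2 * c ^ 2 * V) := by ring
    exact le_of_mul_le_mul_left h5 h4
  have h4 : 1 ≤ (c * V * I) ^ 2 := by
    calc (1 : ℝ) ≤ S * V := hSV
      _ ≤ (I ^ 2 * c ^ 2 * V) * V := by gcongr
      _ = (c * V * I) ^ 2 := by ring
  have h5 : 0 ≤ c * V * I := by positivity
  by_contra hcon
  push Not at hcon
  nlinarith

theorem lower {d : ℕ} {K : Set (E d)} (hK : IsBody K) :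
    (2 / √3) ^ d / volume.real K ≤ turan K := by
  obtain ⟨F₀, hF₀, -⟩ := cls_trivial hK
  have hV : 0 < volume.real K := vol_pos hK
  refine le_csInf ⟨_, F₀, hF₀, rfl⟩ ?_
  rintro _ ⟨F, hF, rfl⟩
  have h := one_le hK hF
  have h3 : (0 : ℝ) < √3 := by positivity
  rw [div_le_iff₀ hV]
  calc (2 / √3) ^ d = (2 / √3) ^ d * 1 := by ring
    _ ≤ (2 / √3) ^ d * ((√3 / 2) ^ d * volume.real K * ∫ x, F x) := by gcongr
    _ = ((2 / √3) * (√3 / 2)) ^ d * ((∫ x, F x) * volume.real K) := by rw [mul_pow]; ring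
    _ = (∫ x, F x) * volume.real K := by
      rw [show (2 / √3) * (√3 / 2) = (1 : ℝ) by field_simp]
      ring

end Pool.Agent.MPbd65ca.Un
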