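import Pool.Agent.Lib.MP_bd65ca_an_U.Defs

/-!
# The change of variables

`gauss2`: `x² + y² + (x+y)² = 2 ((x + y/2)² + (3/4) y²)`, so the integral is the product of
`∫ exp(-(4π/3) x²) dx = √(3/4)` (first in `x`, translation by `y/2`) and `∫ exp(-π y²) dy = 1`
(`integral_gaussian`, Tonelli; `ofReal_integral_eq_lintegral_ofReal`).

`cov`: put `A = T₁ p.1`, `B = T₂ p.2`, `C = T₃ (p.1 + p.2)` and let `Θ(p) = ((2A - B + C)/3, (2B - A + C)/3)`.
* `Θ` is injective: if `X, Y` are the coordinates of `Θ`, then `(X, Y, X + Y)` is the orthogonal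
  projection of `(A, B, C)` to the plane of the vectors `(x, y, x+y)`, that is
  `X x + Y y + (X+Y)(x+y) = A x + B y + C (x+y)` for all `x, y`.  Take the difference for two points
  `p, p'` with `Θ p = Θ p'` and `x = p.1 - p'.1`, `y = p.2 - p'.2`: the sum of the three terms
  `(A - A') x + (B - B') y + (C - C')(x+y)` is `0`, and each term is `≥ 0` and is positive if its second
  factor is not `0` (the functions `T₁, T₂, T₃` are strictly increasing, `strictMono_of_hasDerivAt_pos`).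
* The derivative of `Θ` is the linear map with the matrix
  `(1/3) [[2a + c, c - b], [c - a, 2b + c]]` (`a = a p.1`, `b = b p.2`, `c = c (p.1 + p.2)`), with the
  determinant `(ab + bc + ca)/3 ≥ (abc)^(2/3)` (inequality of the arithmetic and geometric mean,
  `Real.inner_le_nnorm_mul_nnorm` or `Real.geom_mean_le_arith_mean3_weighted` with the weights `1/3`
  applied to `ab, bc, ca`).
* `X² + Y² + (X+Y)² = A² + B² + C² - (A + B - C)²/3 ≤ A² + B² + C²`.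
So the integrand is at most `|det Θ'| · exp(-(2π/3)(X² + Y² + (X+Y)²))`, and
`lintegral_image_eq_lintegral_abs_det_fderiv_mul` (with `s = univ`) and `gauss2` give the claim.
(It may be convenient to do the change of variables on `ℝ × ℝ` with the derivative given as a
`ContinuousLinearMap`, and to compute the determinant with the basis `Basis.finTwoProd ℝ`,
`LinearMap.det_toLin`, `Matrix.det_fin_two`.)
-/

open MeasureTheory Real
open Pool.Agent.MPbd65ca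

namespace Pool.Agent.MPbd65ca.Un

private theorem gauss1 {b : ℝ} (hb : 0 < b) :
    ∫⁻ x : ℝ, ENNReal.ofReal (Real.exp (-b * x ^ 2)) = ENNReal.ofReal √(π / b) := by
  rw [← integral_gaussian b, ofReal_integral_eq_lintegral_ofReal (integrable_exp_neg_mul_sq hb)
    (Filter.Eventually.of_forall fun x => (Real.exp_pos _).le)]

theorem gauss2 : ∫⁻ p : ℝ × ℝ, ENNReal.ofReal
      (Real.exp (-(2 * π / 3) * (p.1 ^ 2 + p.2 ^ 2 + (p.1 + p.2) ^ 2))) =
    ENNReal.ofReal (√3 / 2) := by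
  have hπ := Real.pi_pos
  rw [Measure.volume_eq_prod, lintegral_prod_symm]
  swap
  · exact (by fun_prop : Measurable fun p : ℝ × ℝ => ENNReal.ofReal
      (Real.exp (-(2 * π / 3) * (p.1 ^ 2 + p.2 ^ 2 + (p.1 + p.2) ^ 2)))).aemeasurable
  have h1 : ∀ y : ℝ, ∫⁻ x : ℝ, ENNReal.ofReal
      (Real.exp (-(2 * π / 3) * ((x, y).1 ^ 2 + (x, y).2 ^ 2 + ((x, y).1 + (x, y).2) ^ 2))) =
      ENNReal.ofReal (√3 / 2) * ENNReal.ofReal (Real.exp (-π * y ^ 2)) := by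
    intro y
    have e1 : ∀ x : ℝ, ENNReal.ofReal
        (Real.exp (-(2 * π / 3) * ((x, y).1 ^ 2 + (x, y).2 ^ 2 + ((x, y).1 + (x, y).2) ^ 2))) =
        ENNReal.ofReal (Real.exp (-(4 * π / 3) * (x + y / 2) ^ 2)) *
          ENNReal.ofReal (Real.exp (-π * y ^ 2)) := by
      intro x
      rw [← ENNReal.ofReal_mul (Real.exp_pos _).le, ← Real.exp_add]
      congr 2
      ring
    simp_rw [e1]
    rw [lintegral_mul_const _ (by fun_prop)]
    congr 1
    rw [lintegral_add_right_eq_self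
      (fun x : ℝ => ENNReal.ofReal (Real.exp (-(4 * π / 3) * x ^ 2))) (y / 2),
      gauss1 (by positivity)]
    congr 1
    rw [show π / (4 * π / 3) = 3 / 2 ^ 2 by field_simp; norm_num,
      Real.sqrt_div (by norm_num), Real.sqrt_sq (by norm_num)]
  simp_rw [h1]
  rw [lintegral_const_mul _ (by fun_prop), gauss1 hπ, div_self hπ.ne', Real.sqrt_one,
    ENNReal.ofReal_one, mul_one]

private noncomputable def Dm (a b c : ℝ) : ℝ × ℝ →L[ℝ] ℝ × ℝ :=
  (((2 * a + c) / 3) • ContinuousLinearMap.fst ℝ ℝ ℝ +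
    ((c - b) / 3) • ContinuousLinearMap.snd ℝ ℝ ℝ).prod
  (((c - a) / 3) • ContinuousLinearMap.fst ℝ ℝ ℝ +
    ((2 * b + c) / 3) • ContinuousLinearMap.snd ℝ ℝ ℝ)

private theorem det_Dm (a b c : ℝ) : (Dm a b c).det = (a * b + b * c + c * a) / 3 := by
  rw [ContinuousLinearMap.det, ← LinearMap.det_toMatrix (Module.Basis.finTwoProd ℝ),
    Matrix.det_fin_two]
  simp [LinearMap.toMatrix_apply, Dm]
  ring

theorem cov {T₁ T₂ T₃ a b c : ℝ → ℝ} (h₁ : ∀ t, HasDerivAt T₁ (a t) t)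
    (h₂ : ∀ t, HasDerivAt T₂ (b t) t) (h₃ : ∀ t, HasDerivAt T₃ (c t) t) (ha : ∀ t, 0 < a t)
    (hb : ∀ t, 0 < b t) (hc : ∀ t, 0 < c t) :
    ∫⁻ p : ℝ × ℝ, ENNReal.ofReal
      (Real.exp (-(2 * π / 3) * (T₁ p.1 ^ 2 + T₂ p.2 ^ 2 + T₃ (p.1 + p.2) ^ 2)) *
        (a p.1 * b p.2 * c (p.1 + p.2)) ^ (2 / 3 : ℝ)) ≤ ENNReal.ofReal (√3 / 2) := by
  have hπ := Real.pi_pos
  set Θ : ℝ × ℝ → ℝ × ℝ := fun p =>
    ((2 * T₁ p.1 - T₂ p.2 + T₃ (p.1 + p.2)) / 3, (2 * T₂ p.2 - T₁ p.1 + T₃ (p.1 + p.2)) / 3)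
    with hΘ
  have m₁ : StrictMono T₁ := strictMono_of_hasDerivAt_pos h₁ ha
  have m₂ : StrictMono T₂ := strictMono_of_hasDerivAt_pos h₂ hb
  have m₃ : StrictMono T₃ := strictMono_of_hasDerivAt_pos h₃ hc
  have hd : ∀ p ∈ (Set.univ : Set (ℝ × ℝ)),
      HasFDerivWithinAt Θ (Dm (a p.1) (b p.2) (c (p.1 + p.2))) Set.univ p := by
    intro p _
    apply HasFDerivAt.hasFDerivWithinAt
    have d₁ : HasFDerivAt (fun p : ℝ × ℝ => T₁ p.1) (a p.1 • ContinuousLinearMap.fst ℝ ℝ ℝ) p :=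
      (h₁ p.1).comp_hasFDerivAt p hasFDerivAt_fst
    have d₂ : HasFDerivAt (fun p : ℝ × ℝ => T₂ p.2) (b p.2 • ContinuousLinearMap.snd ℝ ℝ ℝ) p :=
      (h₂ p.2).comp_hasFDerivAt p hasFDerivAt_snd
    have d₃ : HasFDerivAt (fun p : ℝ × ℝ => T₃ (p.1 + p.2))
        (c (p.1 + p.2) • (ContinuousLinearMap.fst ℝ ℝ ℝ + ContinuousLinearMap.snd ℝ ℝ ℝ)) p :=
      (h₃ (p.1 + p.2)).comp_hasFDerivAt p (hasFDerivAt_fst.add hasFDerivAt_snd)
    have e₁ := (((d₁.const_mul 2).sub d₂).add d₃).mul_const (3⁻¹ : ℝ)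
    have e₂ := (((d₂.const_mul 2).sub d₁).add d₃).mul_const (3⁻¹ : ℝ)
    have e := e₁.prodMk e₂
    have hΘ' : Θ = fun x : ℝ × ℝ => ((2 * T₁ x.1 - T₂ x.2 + T₃ (x.1 + x.2)) * 3⁻¹,
        (2 * T₂ x.2 - T₁ x.1 + T₃ (x.1 + x.2)) * 3⁻¹) := by
      funext x
      simp only [hΘ, div_eq_mul_inv]
    rw [hΘ']
    refine HasFDerivAt.congr_fderiv e ?_
    apply ContinuousLinearMap.ext
    intro x
    apply Prod.ext
    · simp [Dm]
      ring
    · simp [Dm]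
      ring
  have hinj : Set.InjOn Θ Set.univ := by
    intro p _ p' _ h
    have hX : (2 * T₁ p.1 - T₂ p.2 + T₃ (p.1 + p.2)) / 3 =
        (2 * T₁ p'.1 - T₂ p'.2 + T₃ (p'.1 + p'.2)) / 3 := congrArg Prod.fst h
    have hY : (2 * T₂ p.2 - T₁ p.1 + T₃ (p.1 + p.2)) / 3 =
        (2 * T₂ p'.2 - T₁ p'.1 + T₃ (p'.1 + p'.2)) / 3 := congrArg Prod.snd h
    have nn : ∀ {T : ℝ → ℝ}, StrictMono T → ∀ s t : ℝ, 0 ≤ (T s - T t) * (s - t) := by
      intro T hT s t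
      rcases le_total s t with h | h
      · exact mul_nonneg_of_nonpos_of_nonpos (sub_nonpos.mpr (hT.monotone h))
          (sub_nonpos.mpr h)
      · exact mul_nonneg (sub_nonneg.mpr (hT.monotone h)) (sub_nonneg.mpr h)
    have ne : ∀ {T : ℝ → ℝ}, StrictMono T → ∀ s t : ℝ, (T s - T t) * (s - t) = 0 → s = t := by
      intro T hT s t h
      rcases mul_eq_zero.mp h with h | h
      · exact hT.injective (sub_eq_zero.mp h)
      · exact sub_eq_zero.mp h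
    have n₁ := nn m₁ p.1 p'.1
    have n₂ := nn m₂ p.2 p'.2
    have n₃ := nn m₃ (p.1 + p.2) (p'.1 + p'.2)
    have hs : (T₁ p.1 - T₁ p'.1) * (p.1 - p'.1) + (T₂ p.2 - T₂ p'.2) * (p.2 - p'.2) +
        (T₃ (p.1 + p.2) - T₃ (p'.1 + p'.2)) * (p.1 + p.2 - (p'.1 + p'.2)) = 0 := by
      linear_combination (2 * (p.1 - p'.1) + (p.2 - p'.2)) * hX +
        ((p.1 - p'.1) + 2 * (p.2 - p'.2)) * hY
    have z₁ : (T₁ p.1 - T₁ p'.1) * (p.1 - p'.1) = 0 := by linarith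
    have z₂ : (T₂ p.2 - T₂ p'.2) * (p.2 - p'.2) = 0 := by linarith
    exact Prod.ext (ne m₁ _ _ z₁) (ne m₂ _ _ z₂)
  set G : ℝ × ℝ → ENNReal := fun p => ENNReal.ofReal
      (Real.exp (-(2 * π / 3) * (p.1 ^ 2 + p.2 ^ 2 + (p.1 + p.2) ^ 2))) with hG
  have hcov := lintegral_image_eq_lintegral_abs_det_fderiv_mul
    (volume : Measure (ℝ × ℝ)) MeasurableSet.univ hd hinj G
  have hle : ∀ p : ℝ × ℝ, ENNReal.ofReal
      (Real.exp (-(2 * π / 3) * (T₁ p.1 ^ 2 + T₂ p.2 ^ 2 + T₃ (p.1 + p.2) ^ 2)) *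
        (a p.1 * b p.2 * c (p.1 + p.2)) ^ (2 / 3 : ℝ)) ≤
      ENNReal.ofReal |(Dm (a p.1) (b p.2) (c (p.1 + p.2))).det| * G (Θ p) := by
    intro p
    rw [det_Dm, hG, ← ENNReal.ofReal_mul (abs_nonneg _)]
    apply ENNReal.ofReal_le_ofReal
    have pa := ha p.1
    have pb := hb p.2
    have pc := hc (p.1 + p.2)
    set x := a p.1
    set y := b p.2
    set z := c (p.1 + p.2)
    have hxy : 0 < x * y := mul_pos pa pb
    have hyz : 0 < y * z := mul_pos pb pc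
    have hzx : 0 < z * x := mul_pos pc pa
    rw [abs_of_pos (by positivity), mul_comm]
    apply mul_le_mul _ _ (Real.exp_pos _).le (by positivity)
    · have h := Real.geom_mean_le_arith_mean3_weighted (w₁ := 1 / 3) (w₂ := 1 / 3) (w₃ := 1 / 3)
        (by norm_num) (by norm_num) (by norm_num) hxy.le hyz.le hzx.le (by norm_num)
      have e : (x * y * z) ^ (2 / 3 : ℝ) =
          (x * y) ^ (1 / 3 : ℝ) * (y * z) ^ (1 / 3 : ℝ) * (z * x) ^ (1 / 3 : ℝ) := by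
        rw [← Real.mul_rpow hxy.le hyz.le, ← Real.mul_rpow (by positivity) hzx.le,
          show x * y * (y * z) * (z * x) = (x * y * z) ^ (2 : ℝ) by
            rw [Real.rpow_two]; ring,
          ← Real.rpow_mul (by positivity)]
        norm_num
      rw [e]
      linarith
    · apply Real.exp_le_exp.mpr
      have hsq : ((2 * T₁ p.1 - T₂ p.2 + T₃ (p.1 + p.2)) / 3) ^ 2 +
          ((2 * T₂ p.2 - T₁ p.1 + T₃ (p.1 + p.2)) / 3) ^ 2 +
          ((2 * T₁ p.1 - T₂ p.2 + T₃ (p.1 + p.2)) / 3 +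
            (2 * T₂ p.2 - T₁ p.1 + T₃ (p.1 + p.2)) / 3) ^ 2 ≤
          T₁ p.1 ^ 2 + T₂ p.2 ^ 2 + T₃ (p.1 + p.2) ^ 2 := by
        nlinarith [sq_nonneg (T₁ p.1 + T₂ p.2 - T₃ (p.1 + p.2))]
      have h3 : 0 ≤ 2 * π / 3 := by positivity
      have := mul_le_mul_of_nonneg_left hsq h3
      simp only [hΘ]
      linarith
  calc _ ≤ ∫⁻ p : ℝ × ℝ, ENNReal.ofReal |(Dm (a p.1) (b p.2) (c (p.1 + p.2))).det| * G (Θ p) :=
        lintegral_mono hle
    _ = ∫⁻ p in Θ '' Set.univ, G p := by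
        rw [hcov, Measure.restrict_univ]
    _ ≤ ∫⁻ p, G p := setLIntegral_le_lintegral _ _
    _ = ENNReal.ofReal (√3 / 2) := gauss2

end Pool.Agent.MPbd65ca.Un
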