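import Pool.Agent.Lib.MP_bd65ca_an_U.Transp
import Pool.Agent.Lib.MP_bd65ca_an_U.Planar

/-!
# The inequality in dimension one

For `ε > 0` let `F₁(t) = f(t)^(3/2) + ε exp(-t²)`, positive, continuous and integrable, with the
integral `m₁ = ∫ f^(3/2) + ε √π > 0`; in the same way `F₂, F₃` for `g, h`.  `exists_transport` for
`F₁/m₁` gives `T₁` with `T₁' = (F₁/m₁) exp(π T₁²)`, similarly `T₂, T₃`.  In `cov` the integrand is
`∏ (exp(-π T²) T')^(2/3) = ∏ (Fᵢ/mᵢ)^(2/3)`, so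
`∫⁻ ofReal (F₁(x) F₂(y) F₃(x+y))^(2/3) ≤ ofReal (√3/2 (m₁ m₂ m₃)^(2/3))`, and `f ≤ F₁^(2/3)` etc.
The integrand `f(x) g(y) h(x+y)` is nonnegative, continuous, of compact support, so its integral is
the `lintegral` (`ofReal_integral_eq_lintegral_ofReal`).  Let `ε → 0` (`ge_of_tendsto`; the right
side is continuous in `ε`).
-/

open MeasureTheory Real
open Pool.Agent.MPbd65ca

namespace Pool.Agent.MPbd65ca.Un

private noncomputable def Fe (f : ℝ → ℝ) (ε t : ℝ) : ℝ := f t ^ (3 / 2 : ℝ) + ε * Real.exp (-t ^ 2)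

private noncomputable def me (f : ℝ → ℝ) (ε : ℝ) : ℝ :=
  (∫ t, f t ^ (3 / 2 : ℝ)) + ε * √π

private theorem pow_int {f : ℝ → ℝ} (hf : Nice f) : Integrable fun t => f t ^ (3 / 2 : ℝ) := by
  refine Continuous.integrable_of_hasCompactSupport
    (hf.cont.rpow_const fun x => Or.inr (by norm_num)) ?_
  exact hf.supp.comp_left (g := fun y : ℝ => y ^ (3 / 2 : ℝ))
    (Real.zero_rpow (by norm_num))

private theorem gint : Integrable fun t : ℝ => Real.exp (-t ^ 2) := by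
  have := integrable_exp_neg_mul_sq (b := 1) one_pos
  simpa using this

private theorem gval : ∫ t : ℝ, Real.exp (-t ^ 2) = √π := by
  have := integral_gaussian 1
  simpa using this

private theorem Fe_int {f : ℝ → ℝ} (hf : Nice f) (ε : ℝ) : Integrable (Fe f ε) :=
  (pow_int hf).add (gint.const_mul ε)

private theorem Fe_val {f : ℝ → ℝ} (hf : Nice f) (ε : ℝ) : ∫ t, Fe f ε t = me f ε := by
  unfold Fe me
  rw [integral_add (pow_int hf) (gint.const_mul ε), integral_const_mul, gval]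

private theorem Fe_pos {f : ℝ → ℝ} (hf : Nice f) {ε : ℝ} (hε : 0 < ε) (t : ℝ) : 0 < Fe f ε t := by
  have := Real.rpow_nonneg (hf.nonneg t) (3 / 2 : ℝ)
  have := mul_pos hε (Real.exp_pos (-t ^ 2))
  unfold Fe
  linarith

private theorem me_pos {f : ℝ → ℝ} (hf : Nice f) {ε : ℝ} (hε : 0 < ε) : 0 < me f ε := by
  have h1 : 0 ≤ ∫ t, f t ^ (3 / 2 : ℝ) :=
    integral_nonneg fun t => Real.rpow_nonneg (hf.nonneg t) _
  have := mul_pos hε (Real.sqrt_pos.2 Real.pi_pos)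
  unfold me
  linarith

private theorem exT {f : ℝ → ℝ} (hf : Nice f) {ε : ℝ} (hε : 0 < ε) :
    ∃ T : ℝ → ℝ, ∀ t, HasDerivAt T (Fe f ε t / me f ε * Real.exp (π * T t ^ 2)) t := by
  have hm := me_pos hf hε
  refine exists_transport (F := fun t => Fe f ε t / me f ε) ?_
    (fun t => div_pos (Fe_pos hf hε t) hm) ((Fe_int hf ε).div_const _) ?_
  · unfold Fe
    refine Continuous.div_const ?_ _
    exact (hf.cont.rpow_const fun x => Or.inr (by norm_num)).add (by fun_prop)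
  · rw [integral_div, Fe_val hf, div_self hm.ne']

private theorem le_Fe {f : ℝ → ℝ} (hf : Nice f) {ε : ℝ} (hε : 0 < ε) (t : ℝ) :
    f t ≤ Fe f ε t ^ (2 / 3 : ℝ) := by
  have h1 : f t = (f t ^ (3 / 2 : ℝ)) ^ (2 / 3 : ℝ) := by
    rw [← Real.rpow_mul (hf.nonneg t)]
    norm_num
  calc f t = (f t ^ (3 / 2 : ℝ)) ^ (2 / 3 : ℝ) := h1
    _ ≤ Fe f ε t ^ (2 / 3 : ℝ) := by
      refine Real.rpow_le_rpow (Real.rpow_nonneg (hf.nonneg t) _) ?_ (by norm_num)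
      have := mul_pos hε (Real.exp_pos (-t ^ 2))
      unfold Fe
      linarith

private theorem fin {F J : ℝ × ℝ → ℝ} {M C : ℝ} (hc : Continuous F) (h0 : ∀ p, 0 ≤ F p)
    (hM : 0 < M) (hC : 0 ≤ C) (hpt : ∀ p, F p ≤ M * J p)
    (key : ∫⁻ p, ENNReal.ofReal (J p) ≤ ENNReal.ofReal C) : ∫ p, F p ≤ C * M := by
  rw [integral_eq_lintegral_of_nonneg_ae (Filter.Eventually.of_forall h0) hc.aestronglyMeasurable]
  refine ENNReal.toReal_le_of_le_ofReal (by positivity) ?_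
  have h1 : ∫⁻ p, ENNReal.ofReal (F p) ≤ ∫⁻ p, ENNReal.ofReal M * ENNReal.ofReal (J p) := by
    refine lintegral_mono fun p => ?_
    rw [← ENNReal.ofReal_mul hM.le]
    exact ENNReal.ofReal_le_ofReal (hpt p)
  rw [lintegral_const_mul' _ _ ENNReal.ofReal_ne_top] at h1
  refine h1.trans ?_
  rw [mul_comm C M, ENNReal.ofReal_mul hM.le]
  gcongr

private theorem eps_bound {f g h : ℝ → ℝ} (hf : Nice f) (hg : Nice g) (hh : Nice h) {ε : ℝ}
    (hε : 0 < ε) : ∫ p : ℝ × ℝ, f p.1 * g p.2 * h (p.1 + p.2) ≤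
      √3 / 2 * (me f ε * me g ε * me h ε) ^ (2 / 3 : ℝ) := by
  obtain ⟨T₁, h₁⟩ := exT hf hε
  obtain ⟨T₂, h₂⟩ := exT hg hε
  obtain ⟨T₃, h₃⟩ := exT hh hε
  have m₁ := me_pos hf hε
  have m₂ := me_pos hg hε
  have m₃ := me_pos hh hε
  have key := cov h₁ h₂ h₃
    (fun t => mul_pos (div_pos (Fe_pos hf hε t) m₁) (Real.exp_pos _))
    (fun t => mul_pos (div_pos (Fe_pos hg hε t) m₂) (Real.exp_pos _))
    (fun t => mul_pos (div_pos (Fe_pos hh hε t) m₃) (Real.exp_pos _))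
  set M : ℝ := (me f ε * me g ε * me h ε) ^ (2 / 3 : ℝ) with hM
  have hM0 : 0 < M := Real.rpow_pos_of_pos (mul_pos (mul_pos m₁ m₂) m₃) _
  have hpt : ∀ p : ℝ × ℝ, f p.1 * g p.2 * h (p.1 + p.2) ≤ M *
      (Real.exp (-(2 * π / 3) * (T₁ p.1 ^ 2 + T₂ p.2 ^ 2 + T₃ (p.1 + p.2) ^ 2)) *
        (Fe f ε p.1 / me f ε * Real.exp (π * T₁ p.1 ^ 2) *
          (Fe g ε p.2 / me g ε * Real.exp (π * T₂ p.2 ^ 2)) *
          (Fe h ε (p.1 + p.2) / me h ε * Real.exp (π * T₃ (p.1 + p.2) ^ 2))) ^ (2 / 3 : ℝ)) := by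
    intro p
    have F₁ := Fe_pos hf hε p.1
    have F₂ := Fe_pos hg hε p.2
    have F₃ := Fe_pos hh hε (p.1 + p.2)
    have e1 : Fe f ε p.1 / me f ε * Real.exp (π * T₁ p.1 ^ 2) *
          (Fe g ε p.2 / me g ε * Real.exp (π * T₂ p.2 ^ 2)) *
          (Fe h ε (p.1 + p.2) / me h ε * Real.exp (π * T₃ (p.1 + p.2) ^ 2)) =
        (Fe f ε p.1 * Fe g ε p.2 * Fe h ε (p.1 + p.2)) / (me f ε * me g ε * me h ε) *
          Real.exp (π * (T₁ p.1 ^ 2 + T₂ p.2 ^ 2 + T₃ (p.1 + p.2) ^ 2)) := by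
      rw [mul_add, mul_add, Real.exp_add, Real.exp_add]
      field_simp
    rw [e1, Real.mul_rpow (by positivity) (Real.exp_pos _).le, ← Real.exp_mul,
      Real.div_rpow (by positivity) (by positivity), ← hM]
    have e2 : Real.exp (-(2 * π / 3) * (T₁ p.1 ^ 2 + T₂ p.2 ^ 2 + T₃ (p.1 + p.2) ^ 2)) *
        Real.exp (π * (T₁ p.1 ^ 2 + T₂ p.2 ^ 2 + T₃ (p.1 + p.2) ^ 2) * (2 / 3)) = 1 := by
      rw [← Real.exp_add, Real.exp_eq_one_iff]
      ring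
    have e3 : M * (Real.exp (-(2 * π / 3) * (T₁ p.1 ^ 2 + T₂ p.2 ^ 2 + T₃ (p.1 + p.2) ^ 2)) *
        ((Fe f ε p.1 * Fe g ε p.2 * Fe h ε (p.1 + p.2)) ^ (2 / 3 : ℝ) / M *
        Real.exp (π * (T₁ p.1 ^ 2 + T₂ p.2 ^ 2 + T₃ (p.1 + p.2) ^ 2) * (2 / 3)))) =
        (Fe f ε p.1 * Fe g ε p.2 * Fe h ε (p.1 + p.2)) ^ (2 / 3 : ℝ) := by
      have : M * (Real.exp (-(2 * π / 3) * (T₁ p.1 ^ 2 + T₂ p.2 ^ 2 + T₃ (p.1 + p.2) ^ 2)) *
        ((Fe f ε p.1 * Fe g ε p.2 * Fe h ε (p.1 + p.2)) ^ (2 / 3 : ℝ) / M *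
        Real.exp (π * (T₁ p.1 ^ 2 + T₂ p.2 ^ 2 + T₃ (p.1 + p.2) ^ 2) * (2 / 3)))) =
        (M / M) * (Fe f ε p.1 * Fe g ε p.2 * Fe h ε (p.1 + p.2)) ^ (2 / 3 : ℝ) *
        (Real.exp (-(2 * π / 3) * (T₁ p.1 ^ 2 + T₂ p.2 ^ 2 + T₃ (p.1 + p.2) ^ 2)) *
        Real.exp (π * (T₁ p.1 ^ 2 + T₂ p.2 ^ 2 + T₃ (p.1 + p.2) ^ 2) * (2 / 3))) := by ring
      rw [this, e2, div_self hM0.ne', one_mul, mul_one]
    rw [e3, Real.mul_rpow (by positivity) F₃.le, Real.mul_rpow F₁.le F₂.le]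
    exact mul_le_mul (mul_le_mul (le_Fe hf hε _) (le_Fe hg hε _) (hg.nonneg _)
      (Real.rpow_nonneg F₁.le _)) (le_Fe hh hε _) (hh.nonneg _)
      (mul_nonneg (Real.rpow_nonneg F₁.le _) (Real.rpow_nonneg F₂.le _))
  have hc : Continuous fun p : ℝ × ℝ => f p.1 * g p.2 * h (p.1 + p.2) :=
    ((hf.cont.comp continuous_fst).mul (hg.cont.comp continuous_snd)).mul
      (hh.cont.comp (continuous_fst.add continuous_snd))
  exact fin hc (fun p => mul_nonneg (mul_nonneg (hf.nonneg _) (hg.nonneg _)) (hh.nonneg _)) hM0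
    (by positivity) hpt key

theorem bl_one {f g h : ℝ → ℝ} (hf : Nice f) (hg : Nice g) (hh : Nice h) :
    ∫ p : ℝ × ℝ, f p.1 * g p.2 * h (p.1 + p.2) ≤ √3 / 2 * (nm f * nm g * nm h) := by
  have hpos : ∀ {f : ℝ → ℝ}, Nice f → 0 ≤ ∫ t, f t ^ (3 / 2 : ℝ) := fun hf =>
    integral_nonneg fun t => Real.rpow_nonneg (hf.nonneg t) _
  have hn : nm f * nm g * nm h = ((me f 0) * (me g 0) * (me h 0)) ^ (2 / 3 : ℝ) := by
    unfold nm me
    simp only [zero_mul, add_zero]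
    rw [Real.mul_rpow (mul_nonneg (hpos hf) (hpos hg)) (hpos hh),
      Real.mul_rpow (hpos hf) (hpos hg)]
  rw [hn]
  have hcont : Continuous fun ε : ℝ => √3 / 2 * (me f ε * me g ε * me h ε) ^ (2 / 3 : ℝ) := by
    refine continuous_const.mul (Continuous.rpow_const ?_ fun x => Or.inr (by norm_num))
    unfold me
    fun_prop
  refine ge_of_tendsto (x := nhdsWithin (0 : ℝ) (Set.Ioi 0))
    (hcont.continuousAt.tendsto.mono_left nhdsWithin_le_nhds) ?_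
  filter_upwards [self_mem_nhdsWithin] with ε hε
  exact eps_bound hf hg hh hε

end Pool.Agent.MPbd65ca.Un
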