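import Pool.Agent.Lib.MP_bd65ca_an_U.Defs

/-!
# Monotone transport to the Gaussian density

Let `Φ(s) = ∫_{-∞}^s exp(-π u²) du`; it is strictly increasing and continuously differentiable with
the derivative `exp(-π s²) > 0`, tends to `0` at `-∞` and to `1` at `∞` (integral_gaussian), so it is
a bijection of the line onto `(0, 1)` (intermediate value theorem).  Let
`P(t) = ∫_{-∞}^t F`, with values in `(0, 1)` since `F > 0` and `∫ F = 1`.  `T(t)` is the point with
`Φ(T(t)) = P(t)`.  `Φ` has a continuous local inverse (it is an order isomorphism onto the open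
interval, or `HasStrictDerivAt.to_localInverse`), and its inverse has the derivative
`exp(π s²)` at `Φ(s)` (`HasDerivAt.of_local_left_inverse`), so `T' (t) = F(t) exp(π T(t)²)` by the chain
rule (`P' = F` by the fundamental theorem of calculus, `F` is continuous).
-/

open MeasureTheory Real
open Pool.Agent.MPbd65ca

namespace Pool.Agent.MPbd65ca.Un

open Set Filter Topology

/-- The distribution function of a positive density. -/
private theorem cdf {F : ℝ → ℝ} (hc : Continuous F) (hp : ∀ t, 0 < F t) (hi : Integrable F)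
    (h1 : ∫ t, F t = 1) :
    ∃ P : ℝ → ℝ, (∀ t, HasDerivAt P (F t) t) ∧ StrictMono P ∧ Tendsto P atBot (𝓝 0) ∧
      Tendsto P atTop (𝓝 1) := by
  refine ⟨fun t => ∫ u in Iic t, F u, ?_, ?_, ?_, ?_⟩
  · intro t
    have h2 : ∀ s, ∫ u in Iic s, F u = (∫ u in Iic t, F u) + ∫ u in t..s, F u := by
      intro s
      rw [← intervalIntegral.integral_Iic_sub_Iic hi.integrableOn hi.integrableOn]
      ring
    have h3 : HasDerivAt (fun s => (∫ u in Iic t, F u) + ∫ u in t..s, F u) (F t) t := by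
      have h4 := intervalIntegral.integral_hasDerivAt_right (hi.intervalIntegrable (a := t) (b := t))
        hc.stronglyMeasurable.stronglyMeasurableAtFilter hc.continuousAt
      exact h4.const_add _
    exact h3.congr_of_eventuallyEq (Eventually.of_forall h2)
  · intro s t hst
    have h2 : (∫ u in Iic t, F u) - ∫ u in Iic s, F u = ∫ u in s..t, F u :=
      intervalIntegral.integral_Iic_sub_Iic hi.integrableOn hi.integrableOn
    have h3 : 0 < ∫ u in s..t, F u :=
      intervalIntegral.intervalIntegral_pos_of_pos_on hi.intervalIntegrable (fun u _ => hp u) hst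
    have h4 : (∫ u in Iic s, F u) < ∫ u in Iic t, F u := by linarith
    exact h4
  · have h2 := intervalIntegral_tendsto_integral_Iic (μ := volume) (f := F) 0 hi.integrableOn
      (tendsto_id (α := ℝ) (x := atBot))
    have h3 : ∀ s, ∫ u in Iic s, F u = (∫ u in Iic (0 : ℝ), F u) - ∫ u in s..0, F u := by
      intro s
      rw [← intervalIntegral.integral_Iic_sub_Iic hi.integrableOn hi.integrableOn]
      ring
    rw [funext h3]
    have h4 := h2.const_sub (∫ u in Iic (0 : ℝ), F u)
    rw [sub_self] at h4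
    exact h4
  · have h2 := intervalIntegral_tendsto_integral_Ioi (μ := volume) (f := F) 0 hi.integrableOn
      (tendsto_id (α := ℝ) (x := atTop))
    have h3 : ∀ s, ∫ u in Iic s, F u = (∫ u in Iic (0 : ℝ), F u) + ∫ u in (0 : ℝ)..s, F u := by
      intro s
      rw [← intervalIntegral.integral_Iic_sub_Iic hi.integrableOn hi.integrableOn]
      ring
    rw [funext h3]
    have h4 := h2.const_add (∫ u in Iic (0 : ℝ), F u)
    rw [intervalIntegral.integral_Iic_add_Ioi hi.integrableOn hi.integrableOn, h1] at h4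
    exact h4

theorem exists_transport {F : ℝ → ℝ} (hc : Continuous F) (hp : ∀ t, 0 < F t) (hi : Integrable F)
    (h1 : ∫ t, F t = 1) :
    ∃ T : ℝ → ℝ, ∀ t, HasDerivAt T (F t * Real.exp (π * T t ^ 2)) t := by
  obtain ⟨P, hP1, hP2, hP3, hP4⟩ := cdf hc hp hi h1
  have hg1 : ∫ t : ℝ, Real.exp (-π * t ^ 2) = 1 := by
    rw [integral_gaussian, div_self Real.pi_ne_zero, Real.sqrt_one]
  obtain ⟨Φ, hΦ1, hΦ2, hΦ3, hΦ4⟩ := cdf (F := fun t : ℝ => Real.exp (-π * t ^ 2))
    (by fun_prop) (fun t => Real.exp_pos _) (integrable_exp_neg_mul_sq Real.pi_pos) hg1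
  have hΦc : Continuous Φ := continuous_iff_continuousAt.2 fun t => (hΦ1 t).continuousAt
  have hP0 : ∀ t, 0 < P t ∧ P t < 1 := by
    intro t
    constructor
    · have h2 : (0 : ℝ) ≤ P (t - 1) := hP2.monotone.le_of_tendsto hP3 _
      exact h2.trans_lt (hP2 (by linarith))
    · have h2 : P (t + 1) ≤ 1 := hP2.monotone.ge_of_tendsto hP4 _
      exact (hP2 (by linarith)).trans_le h2
  have hsurj : ∀ y : ℝ, 0 < y → y < 1 → ∃ s, Φ s = y := by
    intro y h0 h2
    have h3 : ∃ a, Φ a ≤ y := ((hΦ3.eventually (gt_mem_nhds h0)).exists).imp fun _ h => le_of_lt h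
    have h4 : ∃ a, y ≤ Φ a := ((hΦ4.eventually (lt_mem_nhds h2)).exists).imp fun _ h => le_of_lt h
    exact mem_range_of_exists_le_of_exists_ge hΦc h3 h4
  obtain ⟨Ψ, hΨ⟩ : ∃ Ψ : ℝ → ℝ, ∀ y, 0 < y → y < 1 → Φ (Ψ y) = y := by
    refine ⟨Function.invFun Φ, fun y h0 h2 => ?_⟩
    exact Function.invFun_eq (hsurj y h0 h2)
  have hev : ∀ y : ℝ, 0 < y → y < 1 → ∀ᶠ z in 𝓝 y, Φ (Ψ z) = z := by
    intro y h0 h2
    filter_upwards [lt_mem_nhds h0, gt_mem_nhds h2] with z h3 h4
    exact hΨ z h3 h4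
  have hΨc : ∀ y : ℝ, 0 < y → y < 1 → ContinuousAt Ψ y := by
    intro y h0 h2
    refine tendsto_order.2 ⟨fun a ha => ?_, fun a ha => ?_⟩
    · have h3 : Φ a < y := by
        rw [← hΨ y h0 h2]
        exact hΦ2 ha
      filter_upwards [lt_mem_nhds h3, hev y h0 h2] with z h4 h5
      rw [← h5] at h4
      exact hΦ2.lt_iff_lt.1 h4
    · have h3 : y < Φ a := by
        rw [← hΨ y h0 h2]
        exact hΦ2 ha
      filter_upwards [gt_mem_nhds h3, hev y h0 h2] with z h4 h5
      rw [← h5] at h4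
      exact hΦ2.lt_iff_lt.1 h4
  refine ⟨fun t => Ψ (P t), fun t => ?_⟩
  obtain ⟨h0, h2⟩ := hP0 t
  have h3 := HasDerivAt.of_local_left_inverse (hΨc _ h0 h2) (hΦ1 (Ψ (P t)))
    (Real.exp_pos _).ne' (hev _ h0 h2)
  have h4 := h3.comp t (hP1 t)
  have h5 : (Real.exp (-π * Ψ (P t) ^ 2))⁻¹ * F t = F t * Real.exp (π * Ψ (P t) ^ 2) := by
    rw [← Real.exp_neg, mul_comm]
    congr 2
    ring
  rw [← h5]
  exact h4

end Pool.Agent.MPbd65ca.Un
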